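import Pool.Agent.K7.H72.IP.PEND
import Pool.Agent.K7.H72.IP.Tame2
import Pool.Agent.K7.H99.IP_RAND
import Pool.Agent.K7.H99.IP_K2
import Pool.Agent.K7.H41.IP_HEAVY
import Pool.Agent.K7.H41.IP_KA1
import Pool.Agent.K7.H66.IP_KA2
import Pool.Agent.K7.H48.IP_KA3
import Pool.Agent.K7.H37.IP_EXS
import Pool.Agent.K7.H85.IP_EXP
import Pool.Agent.K7.H57.IP_TOUCH
import Pool.Agent.K7.H21.IP_SUB
import Pool.Agent.K7.H70.IP_RED
import Pool.Agent.K7.H3.IP_DISJ
import Pool.Agent.K7.H56.IP_C4L

set_option autoImplicit false

/-!
# Induced copies in graphs without `K_{t,t}`: reduction to connected graphs of minimum degree two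

For a bipartite graph `H` without isolated vertices Q1 of MP_a2fd8c_co asks whether every graph `G`
with `n` vertices that contains neither an induced copy of `H` nor a (not necessarily induced)
`K_{t,t}` has at most `f (t) ex(n, H)` edges (property `Q H`).

* `Q` is closed under disjoint unions of graphs (without isolated vertices).
* `Q` is closed under attaching a pendant edge at any vertex.
* So it is enough to prove `Q K` for the connected bipartite graphs `K` of minimum degree at least two.
* `Q H` holds for every graph `H` that is obtained from single edges and complete bipartite graphs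
  `K_{2,b}`, `b ≥ 2` (or any `K_{a,b}` for which `ex(n, K_{a,b})` has the order `n ^ (2 - 1 / a)`) by
  disjoint unions and by attaching pendant edges.

Method. (Pendant edges.) In a `K_{t,t}`-free graph only boundedly many vertices `u` are adjacent to a fixed
proportion of the neighbours of a given vertex `v` of large degree. A random set of vertices avoids
all these pairs and keeps a positive proportion of the edges. It contains an induced copy of `H`, and then
`v` has a neighbour that is adjacent to no other vertex of the copy. (Disjoint unions.) If every induced copy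
of `H` has neighbourhoods which meet a positive proportion of the edges, then the set `B` of the vertices
whose closed neighbourhoods meet a positive proportion of the edges meets every induced copy of `H`; and
`K_{t,t}`-freeness implies that `B` is bounded or that there are only `O(n)` edges.
-/

namespace Pool.Agent.Results.MP_a2fd8c_co.CoreReduction

open SimpleGraph Pool.Agent.K7.H72.IP

theorem disj : StDisj :=
  Pool.Agent.K7.H3.IPDISJ.t Pool.Agent.K7.H21.IPSUB.t Pool.Agent.K7.H57.IP.touch
    Pool.Agent.K7.H37.IPEXS.t

theorem pendant : StPend :=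
  Pool.Agent.K7.H72.IPPEND.t Pool.Agent.K7.H41.IP.heavy Pool.Agent.K7.H99.IPRAND.t
    Pool.Agent.K7.H21.IPSUB.t Pool.Agent.K7.H85.IPEXP.exP

theorem kab' : StKab :=
  kab Pool.Agent.K7.H41.IP.ka1 Pool.Agent.K7.H66.IPKA2.t Pool.Agent.K7.H48.IP.ka3

/-- (1) `Q` is closed under disjoint unions. (2) `Q` is closed under attaching a pendant edge. (3) If `Q K`
holds for all connected bipartite graphs `K` of minimum degree at least two, then `Q H` holds for all bipartite
graphs `H` with an edge and without isolated vertices. (4) `ex(n, K_{2,b}) ≥ c n ^ (3 / 2)` for `b ≥ 2`, and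
`Q H` holds for all graphs `H` that arise from a single edge and the `K_{a,b}` with
`ex(n, K_{a,b}) ≥ c n ^ (2 - 1 / a)` by disjoint unions and by attaching pendant edges. -/
theorem result :
    (∀ (V W : Type) [Finite V] [Finite W] (H : SimpleGraph V) (K : SimpleGraph W),
      H.edgeSet.Nonempty → K.edgeSet.Nonempty → (∀ v, ∃ w, H.Adj v w) → (∀ v, ∃ w, K.Adj v w) →
        Q H → Q K → Q (H ⊕g K)) ∧
    (∀ (V : Type) [Finite V] (H : SimpleGraph V), (∀ v, ∃ w, H.Adj v w) → Q H →
      ∀ v : V, Q (pend H v)) ∧
    ((∀ (k : ℕ) (K : SimpleGraph (Fin k)), K.Colorable 2 → K.Connected →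
        (∀ v, 2 ≤ {w | K.Adj v w}.ncard) → Q K) →
      ∀ (k : ℕ) (H : SimpleGraph (Fin k)), H.Colorable 2 → H.edgeSet.Nonempty →
        (∀ v, ∃ w, H.Adj v w) → Q H) ∧
    (∀ b : ℕ, 2 ≤ b → HasOrder 2 b) ∧
    (∀ (V : Type) (H : SimpleGraph V), Built H → Q H) :=
  ⟨disj, pendant,
    Pool.Agent.K7.H70.IPRED.t pendant disj Pool.Agent.K7.H99.IPK2.t Pool.Agent.K7.H85.IPEXP.iso,
    hasOrder_two Pool.Agent.K7.H56.IPC4L.t,
    fun _ H hH => (built_Q disj pendant Pool.Agent.K7.H99.IPK2.t Pool.Agent.K7.H85.IPEXP.iso kab'
      H hH).2.2.2⟩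

end Pool.Agent.Results.MP_a2fd8c_co.CoreReduction
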